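import Mathlib
import Pool.Agent.H.MP_345fd7_an.h81.Main
import Pool.Agent.H.MP_345fd7_an.h81.Empty

set_option autoImplicit false

open Polynomial

namespace Pool.Agent.Results.MP_345fd7_an.PrimitiveRealization

/-- All coefficients are nonnegative. -/
def IsNonneg {G : Type} (x : MonoidAlgebra ℤ G) : Prop := ∀ g : G, 0 ≤ x.coeff g

/-- All coefficients are positive. -/
def IsPositive {G : Type} (x : MonoidAlgebra ℤ G) : Prop := ∀ g : G, 0 < x.coeff g

/-- `G`-primitive matrices over the integral group ring. -/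
def IsGPrimitive {G : Type} [CommGroup G] {n : ℕ} (A : Matrix (Fin n) (Fin n) (MonoidAlgebra ℤ G)) : Prop :=
  (∀ i j, IsNonneg (A i j)) ∧ ∃ k : ℕ, 1 ≤ k ∧ ∀ i j, IsPositive ((A ^ k) i j)

/-- Shift equivalence of square matrices over a commutative ring. -/
def IsShiftEquivalent {R : Type} [CommRing R] {n m : ℕ} (A : Matrix (Fin n) (Fin n) R)
    (B : Matrix (Fin m) (Fin m) R) : Prop :=
  ∃ ℓ : ℕ, 1 ≤ ℓ ∧ ∃ (U : Matrix (Fin n) (Fin m) R) (V : Matrix (Fin m) (Fin n) R),
    A ^ ℓ = U * V ∧ B ^ ℓ = V * U ∧ A * U = U * B ∧ V * A = B * V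

/-- The polynomial `det (1 - t A)`. -/
noncomputable def detOneSub {R : Type} [CommRing R] {n : ℕ} (A : Matrix (Fin n) (Fin n) R) : R[X] :=
  Matrix.det (1 - (X : R[X]) • A.map Polynomial.C)

theorem main_pos (G : Type) [CommGroup G] [Fintype G] {n m : ℕ}
    (A : Matrix (Fin (n + 1)) (Fin (n + 1)) (MonoidAlgebra ℤ G))
    (B : Matrix (Fin m) (Fin m) (MonoidAlgebra ℤ G)) (hA : IsGPrimitive A)
    (hdet : detOneSub A = detOneSub B) :
    ∃ (p : ℕ) (C : Matrix (Fin p) (Fin p) (MonoidAlgebra ℤ G)), IsGPrimitive C ∧ IsShiftEquivalent B C := by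
  by_cases hnt : n = 0 ∧ Fintype.card G = 1 ∧ A 0 0 = 1
  · obtain ⟨rfl, hG, hA1⟩ := hnt
    have hd : (1 - (Polynomial.X : Polynomial (MonoidAlgebra ℤ G)) • B.map Polynomial.C).det =
        1 - (Polynomial.X : Polynomial (MonoidAlgebra ℤ G)) := by
      have h0 : detOneSub B = detOneSub A := hdet.symm
      unfold detOneSub at h0
      rw [h0, Matrix.det_fin_one]
      simp [hA1]
    obtain ⟨ℓ, hℓ, R, S, h1, h2, h3, h4⟩ := H.MP_345fd7_an.triv_case G hG B hd
    have hpos : ∀ i j, IsPositive ((1 : Matrix (Fin 1) (Fin 1) (MonoidAlgebra ℤ G)) i j) := by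
      intro i j g
      rw [Subsingleton.elim j i, Matrix.one_apply_eq]
      obtain ⟨g0, hg0⟩ := Fintype.card_eq_one_iff.1 hG
      rw [hg0 g, ← hg0 1]
      rw [MonoidAlgebra.coeff_one_one]
      exact one_pos
    refine ⟨1, 1, ⟨fun i j g => (hpos i j g).le, 1, le_rfl, ?_⟩, ℓ, hℓ, R, S, h3.symm, ?_, ?_, ?_⟩
    · rw [pow_one]; exact hpos
    · rw [h4, one_pow]
    · rw [h1, Matrix.mul_one]
    · rw [h2, Matrix.one_mul]
  · obtain ⟨p, Cm, hC, hCk, ℓ, hℓ, R, S, h1, h2, h3, h4⟩ := H.MP_345fd7_an.h81.main_nontriv A B hA.1 hA.2 hnt hdet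
    exact ⟨p, Cm, ⟨hC, hCk⟩, ℓ, hℓ, R, S, h3.symm, h4.symm, h1, h2⟩

/-- A square matrix over the integral group ring of a finite abelian group with the same polynomial
`det (1 - t A)` as a `G`-primitive matrix `A` is shift equivalent to a `G`-primitive matrix. -/
theorem result (G : Type) [CommGroup G] [Finite G] (n m : ℕ)
    (A : Matrix (Fin n) (Fin n) (MonoidAlgebra ℤ G)) (B : Matrix (Fin m) (Fin m) (MonoidAlgebra ℤ G))
    (hA : IsGPrimitive A) (hdet : detOneSub A = detOneSub B) :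
    ∃ (p : ℕ) (C : Matrix (Fin p) (Fin p) (MonoidAlgebra ℤ G)),
      IsGPrimitive C ∧ IsShiftEquivalent B C ∧ (p = 0 ↔ n = 0) := by
  have := Fintype.ofFinite G
  cases n with
  | zero =>
    have h1 : B.charpolyRev = 1 := by
      show detOneSub B = 1
      rw [← hdet]
      unfold detOneSub
      exact Matrix.det_fin_zero
    have h2 := H.MP_345fd7_an.h81.pow_eq_zero_of_charpolyRev B h1
    refine ⟨0, 0, ⟨fun i => i.elim0, 1, le_rfl, fun i => i.elim0⟩,
      ⟨m + 1, by omega, 0, 0, ?_, ?_, ?_, ?_⟩, by simp⟩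
    · rw [pow_succ, h2, Matrix.zero_mul, Matrix.zero_mul]
    · exact Subsingleton.elim _ _
    · rw [Matrix.mul_zero, Matrix.zero_mul]
    · rw [Matrix.zero_mul, Matrix.mul_zero]
  | succ n =>
    obtain ⟨p, C, hC, hS⟩ := main_pos G A B hA hdet
    refine ⟨p, C, hC, hS, ⟨fun hp => ?_, fun h => absurd h (by omega)⟩⟩
    exfalso
    subst hp
    obtain ⟨ℓ, hℓ, U, V, h1, h2, h3, h4⟩ := hS
    have hnil : IsNilpotent B := by
      refine ⟨ℓ, ?_⟩
      rw [h1]
      ext i j
      simp [Matrix.mul_apply]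
    have hu : IsUnit A.charpolyRev := by
      have h5 := Matrix.isUnit_charpolyRev_of_isNilpotent hnil
      have h6 : A.charpolyRev = B.charpolyRev := hdet
      rw [h6]
      exact h5
    exact H.MP_345fd7_an.h81.not_isUnit_charpolyRev A hA.2 hu

end Pool.Agent.Results.MP_345fd7_an.PrimitiveRealization
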